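import Mathlib.Algebra.Notation.Lemmas
import Mathlib.Tactic.Monotonicity.Lemmas
import Mathlib.Analysis.Real.Cardinality

-- ======== part 0: formerly Pool.Agent.MP_91fb13_lc.Diag
section MrgPart0

/-!
A diagonalisation of length continuum, and Cantor schemes of reals.
-/

set_option autoImplicit false

open Cardinal Set

namespace Pool.Agent.MP_91fb13_lc

/-- Transfinite dependent choice along a well-founded relation. -/
theorem wf_choice {I B : Type} (r : I → I → Prop) (hr : WellFounded r)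
    (P : (i : I) → ((j : I) → r j i → B) → B → Prop) (hP : ∀ i f, ∃ b, P i f b) :
    ∃ β : I → B, ∀ i, P i (fun j _ => β j) (β i) := by
  choose F hF using hP
  refine ⟨hr.fix F, fun i => ?_⟩
  rw [hr.fix_eq F i]
  exact hF i _

theorem diag {I : Type} (hI : Cardinal.mk I ≤ continuum) (R S : I → (ℕ → Bool) → ℝ)
    (hR : ∀ i, Function.Injective (R i)) (hS : ∀ i, Function.Injective (S i)) :
    ∃ β : I → (ℕ → Bool), ∀ i j, i ≠ j → R i (β i) ≠ R j (β j) ∧ R i (β i) ≠ S j (β j) := by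
  obtain ⟨lo, wf, hord⟩ := Cardinal.exists_ord_eq_type_lt I
  have hlt : ∀ i : I, Cardinal.mk (Iio i) < continuum :=
    fun i => (Cardinal.mk_Iio_lt i hord).trans_le hI
  obtain ⟨β, hβ⟩ := wf_choice (B := ℕ → Bool) (fun a b : I => a < b) wf.wf
    (fun i f b => ∀ j (hj : j < i), R i b ≠ R j (f j hj) ∧ R i b ≠ S j (f j hj) ∧
      S i b ≠ R j (f j hj)) (by
      intro i f
      set F : Set ℝ := range (fun j : Iio i => R j (f j j.2)) ∪
        range (fun j : Iio i => S j (f j j.2)) with hF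
      have hFc : Cardinal.mk F < continuum :=
        (mk_union_le _ _).trans_lt (add_lt_of_lt aleph0_le_continuum
          (mk_range_le.trans_lt (hlt i)) (mk_range_le.trans_lt (hlt i)))
      have hBad : Cardinal.mk ((R i ⁻¹' F ∪ S i ⁻¹' F : Set (ℕ → Bool))) < continuum :=
        (mk_union_le _ _).trans_lt (add_lt_of_lt aleph0_le_continuum
          ((mk_preimage_of_injective _ _ (hR i)).trans_lt hFc)
          ((mk_preimage_of_injective _ _ (hS i)).trans_lt hFc))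
      have hne : (R i ⁻¹' F ∪ S i ⁻¹' F : Set (ℕ → Bool)) ≠ Set.univ := by
        intro h
        rw [h, mk_univ] at hBad
        simp at hBad
      obtain ⟨b, hb⟩ := (ne_univ_iff_exists_notMem _).1 hne
      refine ⟨b, fun j hj => ⟨fun h => hb (Or.inl (Or.inl ⟨⟨j, hj⟩, h.symm⟩)),
        fun h => hb (Or.inl (Or.inr ⟨⟨j, hj⟩, h.symm⟩)),
        fun h => hb (Or.inr (Or.inl ⟨⟨j, hj⟩, h.symm⟩))⟩⟩)
  refine ⟨β, fun i j hij => ?_⟩
  rcases lt_or_gt_of_ne hij with h | h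
  · exact ⟨(hβ j i h).1.symm, (hβ j i h).2.2.symm⟩
  · exact ⟨(hβ i j h).1, (hβ i j h).2.1⟩

/-- The first `n` values of `b`, latest first. -/
def pre (b : ℕ → Bool) : ℕ → List Bool
  | 0 => []
  | n + 1 => b n :: pre b n

/-- The supremum of `d` along the branch `b`. -/
noncomputable def brSup (d : List Bool → ℝ) (b : ℕ → Bool) : ℝ := ⨆ n, d (pre b n)

/-- A generic colouring relation of the reals. -/
theorem exists_generic {C : Type} (hC : Cardinal.mk C ≤ continuum) :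
    ∃ G : ℝ → C → Prop, (∀ t c c', G t c → G t c' → c = c') ∧
      ∀ d₁ d₂ : List Bool → ℝ, Function.Injective (brSup d₁) → Function.Injective (brSup d₂) →
        ∀ c, ∃ b, G (brSup d₁ b) c ∧ ∀ c', G (brSup d₂ b) c' → brSup d₂ b = brSup d₁ b := by
  let I : Type := {x : (List Bool → ℝ) × (List Bool → ℝ) × C //
    Function.Injective (brSup x.1) ∧ Function.Injective (brSup x.2.1)}
  have hI : Cardinal.mk I ≤ continuum := by
    refine (mk_subtype_le _).trans ?_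
    have h1 : Cardinal.mk (List Bool → ℝ) = continuum := by simp [Cardinal.mk_real]
    rw [mk_prod, mk_prod, h1]
    simp only [lift_id]
    calc continuum * (continuum * Cardinal.mk C) ≤ continuum * (continuum * continuum) := by
          gcongr
      _ = continuum := by simp
  obtain ⟨β, hβ⟩ := diag hI (fun i => brSup i.1.1) (fun i => brSup i.1.2.1)
    (fun i => i.2.1) (fun i => i.2.2)
  refine ⟨fun t c => ∃ i : I, brSup i.1.1 (β i) = t ∧ i.1.2.2 = c, ?_, ?_⟩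
  · rintro t c c' ⟨i, hi, rfl⟩ ⟨j, hj, rfl⟩
    by_cases hij : i = j
    · rw [hij]
    · exact absurd (hi.trans hj.symm) (hβ i j hij).1
  · intro d₁ d₂ h₁ h₂ c
    let i : I := ⟨(d₁, d₂, c), h₁, h₂⟩
    refine ⟨β i, ⟨i, rfl, rfl⟩, ?_⟩
    rintro c' ⟨j, hj, -⟩
    by_cases hij : j = i
    · rw [hij] at hj
      exact hj.symm
    · exact absurd hj (hβ j i hij).2

section Scheme

variable {d e : List Bool → ℝ}

theorem scheme_bound (h2 : ∀ l i, d (i :: l) + e (i :: l) ≤ d l + e l) (b : ℕ → Bool) (n m : ℕ) :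
    d (pre b (n + m)) + e (pre b (n + m)) ≤ d (pre b n) + e (pre b n) := by
  induction m with
  | zero => exact le_rfl
  | succ m ih => exact (h2 _ _).trans ih

theorem scheme_mono (h1 : ∀ l i, d l < d (i :: l)) (b : ℕ → Bool) :
    StrictMono (fun n => d (pre b n)) :=
  strictMono_nat_of_lt_succ (fun _ => h1 _ _)

theorem scheme_le (h1 : ∀ l i, d l < d (i :: l))
    (h2 : ∀ l i, d (i :: l) + e (i :: l) ≤ d l + e l) (h3 : ∀ l, 0 < e l) (b : ℕ → Bool)
    (n m : ℕ) : d (pre b m) ≤ d (pre b n) + e (pre b n) := by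
  have a1 : d (pre b m) ≤ d (pre b (n + m)) := (scheme_mono h1 b).monotone (Nat.le_add_left m n)
  have a2 := scheme_bound h2 b n m
  have a3 := h3 (pre b (n + m))
  linarith

theorem scheme_sup_le (h1 : ∀ l i, d l < d (i :: l))
    (h2 : ∀ l i, d (i :: l) + e (i :: l) ≤ d l + e l) (h3 : ∀ l, 0 < e l) (b : ℕ → Bool)
    (n : ℕ) : brSup d b ≤ d (pre b n) + e (pre b n) :=
  ciSup_le (fun m => scheme_le h1 h2 h3 b n m)

theorem scheme_lt_sup (h1 : ∀ l i, d l < d (i :: l))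
    (h2 : ∀ l i, d (i :: l) + e (i :: l) ≤ d l + e l) (h3 : ∀ l, 0 < e l) (b : ℕ → Bool)
    (n : ℕ) : d (pre b n) < brSup d b := by
  have hb : BddAbove (range fun m => d (pre b m)) :=
    ⟨d (pre b 0) + e (pre b 0), by rintro _ ⟨m, rfl⟩; exact scheme_le h1 h2 h3 b 0 m⟩
  exact (h1 (pre b n) (b n)).trans_le (le_ciSup hb (n + 1))

theorem scheme_approx (b : ℕ → Bool) (t : ℝ) (ht : t < brSup d b) : ∃ n, t < d (pre b n) :=
  exists_lt_of_lt_ciSup ht

theorem scheme_inj (h1 : ∀ l i, d l < d (i :: l))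
    (h2 : ∀ l i, d (i :: l) + e (i :: l) ≤ d l + e l) (h3 : ∀ l, 0 < e l)
    (h4 : ∀ l, d (false :: l) + e (false :: l) ≤ d (true :: l)) :
    Function.Injective (brSup d) := by
  classical
  have key : ∀ (b b' : ℕ → Bool) (n : ℕ), pre b n = pre b' n → b n = false → b' n = true →
      brSup d b < brSup d b' := by
    intro b b' n hp hb hb'
    have a1 := scheme_sup_le h1 h2 h3 b (n + 1)
    have a2 := scheme_lt_sup h1 h2 h3 b' (n + 1)
    have a3 := h4 (pre b n)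
    simp only [pre, hb, hb'] at a1 a2
    rw [← hp] at a2
    linarith
  intro b b' hbb
  by_contra hne
  have hex : ∃ n, b n ≠ b' n := by
    by_contra hc
    push Not at hc
    exact hne (funext hc)
  have hpre : ∀ m, m ≤ Nat.find hex → pre b m = pre b' m := by
    intro m
    induction m with
    | zero => intro _; rfl
    | succ m ih =>
      intro hm
      have h5 : b m = b' m := by
        have := Nat.find_min hex (show m < Nat.find hex by omega)
        simpa using this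
      simp only [pre, h5, ih (by omega)]
  have hn := Nat.find_spec hex
  have hp := hpre _ le_rfl
  cases hb : b (Nat.find hex) <;> cases hb' : b' (Nat.find hex)
  · exact hn (hb.trans hb'.symm)
  · exact absurd hbb (key b b' _ hp hb hb').ne
  · exact absurd hbb (key b' b _ hp.symm hb' hb).ne'
  · exact hn (hb.trans hb'.symm)

end Scheme

end Pool.Agent.MP_91fb13_lc

end MrgPart0

-- ======== part 1: formerly Pool.Agent.MP_91fb13_lc.Tree
section MrgPart1

/-!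
The tree of right-locally-constant label functions whose left accumulation points of turns
obey a rule read off a generic colouring of the reals.
-/

set_option autoImplicit false

open Set

namespace Pool.Agent.MP_91fb13_lc

universe u

/-- The rule which a left accumulation point `t` of turns of `f` has to obey. -/
def Rule {L : Type u} [LinearOrder L] (G : ℝ → ℝ × ℝ × Prop → Prop) (f : ℝ → L) (t : ℝ) : Prop :=
  ∃ p q, p < t ∧ q < t ∧ G t (p, q, f q < f p)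

/-- Points of the tree. -/
@[ext]
structure Pt (L : Type u) [LinearOrder L] (d : L) (G : ℝ → ℝ × ℝ × Prop → Prop) where
  h : ℝ
  f : ℝ → L
  h_nonneg : 0 ≤ h
  neg : ∀ t, t < 0 → f t = d
  top : ∀ t, h ≤ t → f t = d
  rc : ∀ t, t < h → ∃ e, t < e ∧ ∀ s, t ≤ s → s < e → f s = f t
  lim : ∀ t, t ≤ h → (∃ e, e < t ∧ ∀ s, e ≤ s → s < t → f s = f e) ∨ Rule G f t

variable {L : Type u} [LinearOrder L] {d : L} {G : ℝ → ℝ × ℝ × Prop → Prop}

theorem Rule.congr {f g : ℝ → L} {t : ℝ} (h : Rule G f t) (hfg : ∀ s, s < t → f s = g s) :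
    Rule G g t := by
  obtain ⟨p, q, hp, hq, hG⟩ := h
  exact ⟨p, q, hp, hq, by rw [← hfg p hp, ← hfg q hq]; exact hG⟩

theorem lim_congr {f g : ℝ → L} {t : ℝ}
    (h : (∃ e, e < t ∧ ∀ s, e ≤ s → s < t → f s = f e) ∨ Rule G f t)
    (hfg : ∀ s, s < t → f s = g s) :
    (∃ e, e < t ∧ ∀ s, e ≤ s → s < t → g s = g e) ∨ Rule G g t := by
  rcases h with ⟨e, he, h⟩ | h
  · exact Or.inl ⟨e, he, fun s h1 h2 => by rw [← hfg s h2, ← hfg e he]; exact h s h1 h2⟩
  · exact Or.inr (h.congr hfg)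

instance : PartialOrder (Pt L d G) where
  le x y := x.h ≤ y.h ∧ ∀ t, t < x.h → x.f t = y.f t
  le_refl x := ⟨le_rfl, fun _ _ => rfl⟩
  le_trans x y z hxy hyz :=
    ⟨hxy.1.trans hyz.1, fun t ht => (hxy.2 t ht).trans (hyz.2 t (ht.trans_le hxy.1))⟩
  le_antisymm x y hxy hyx := by
    have hh : x.h = y.h := le_antisymm hxy.1 hyx.1
    refine Pt.ext hh (funext fun t => ?_)
    rcases lt_or_ge t x.h with ht | ht
    · exact hxy.2 t ht
    · rw [x.top t ht, y.top t (hh ▸ ht)]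

theorem Pt.le_def {x y : Pt L d G} : x ≤ y ↔ x.h ≤ y.h ∧ ∀ t, t < x.h → x.f t = y.f t := Iff.rfl

theorem Pt.le_of_le_of_h_le {x y z : Pt L d G} (hx : x ≤ z) (hy : y ≤ z) (h : x.h ≤ y.h) :
    x ≤ y :=
  ⟨h, fun t ht => (hx.2 t ht).trans (hy.2 t (ht.trans_le h)).symm⟩

theorem Pt.h_lt {x y : Pt L d G} (h : x < y) : x.h < y.h := by
  by_contra hc
  exact h.not_ge (Pt.le_of_le_of_h_le le_rfl h.le (not_lt.1 hc))

theorem Pt.lt_of_le_of_h_lt {x y : Pt L d G} (h : x ≤ y) (hh : x.h < y.h) : x < y :=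
  lt_of_le_of_ne h (fun e => by rw [e] at hh; exact lt_irrefl _ hh)

theorem Pt.total_of_le {x y z : Pt L d G} (hx : x ≤ z) (hy : y ≤ z) : x ≤ y ∨ y ≤ x := by
  rcases le_total x.h y.h with h | h
  · exact Or.inl (Pt.le_of_le_of_h_le hx hy h)
  · exact Or.inr (Pt.le_of_le_of_h_le hy hx h)

/-- The root. -/
def Pt.root : Pt L d G where
  h := 0
  f := fun _ => d
  h_nonneg := le_rfl
  neg := fun _ _ => rfl
  top := fun _ _ => rfl
  rc := fun t _ => ⟨t + 1, by linarith, fun _ _ _ => rfl⟩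
  lim := fun t _ => Or.inl ⟨t - 1, by linarith, fun _ _ _ => rfl⟩

theorem Pt.exists_restrict (x : Pt L d G) (r : ℝ) (h0 : 0 ≤ r) (hr : r ≤ x.h) :
    ∃ w : Pt L d G, w.h = r ∧ w ≤ x := by
  classical
  refine ⟨⟨r, fun t => if t < r then x.f t else d, h0, ?_, ?_, ?_, ?_⟩, rfl, hr, ?_⟩
  · intro t ht
    simp only [x.neg t ht, ite_self]
  · intro t ht
    simp only [not_lt.2 ht, if_false]
  · intro t ht
    obtain ⟨e, he, h⟩ := x.rc t (ht.trans_le hr)
    refine ⟨min e r, lt_min he ht, fun s h1 h2 => ?_⟩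
    simp only [ht, (lt_min_iff.1 h2).2, if_true]
    exact h s h1 (lt_min_iff.1 h2).1
  · intro t ht
    refine lim_congr (x.lim t (ht.trans hr)) (fun s hs => ?_)
    simp only [hs.trans_le ht, if_true]
  · intro t ht
    simp only [show t < r from ht, if_true]

theorem Pt.exists_extend (x : Pt L d G) (ξ : L) :
    ∃ w : Pt L d G, x < w ∧ w.f x.h = ξ := by
  classical
  have h01 : x.h < x.h + 1 := by linarith
  refine ⟨⟨x.h + 1, fun t => if t < x.h then x.f t else if t < x.h + 1 then ξ else d,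
    by linarith [x.h_nonneg], ?_, ?_, ?_, ?_⟩, ?_, ?_⟩
  · intro t ht
    simp only [ht.trans_le x.h_nonneg, if_true, x.neg t ht]
  · intro t ht
    have h1 : ¬ t < x.h := by linarith
    simp only [h1, not_lt.2 ht, if_false]
  · intro t ht
    by_cases h1 : t < x.h
    · obtain ⟨e, he, h⟩ := x.rc t h1
      refine ⟨min e x.h, lt_min he h1, fun s h2 h3 => ?_⟩
      simp only [h1, (lt_min_iff.1 h3).2, if_true]
      exact h s h2 (lt_min_iff.1 h3).1
    · refine ⟨x.h + 1, ht, fun s h2 h3 => ?_⟩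
      have h4 : ¬ s < x.h := by linarith
      simp only [h1, h4, h3, ht, if_true, if_false]
  · intro t ht
    by_cases h1 : t ≤ x.h
    · refine lim_congr (x.lim t h1) (fun s hs => ?_)
      simp only [hs.trans_le h1, if_true]
    · refine Or.inl ⟨x.h, not_le.1 h1, fun s h2 h3 => ?_⟩
      have h4 : ¬ s < x.h := not_lt.2 h2
      have h5 : s < x.h + 1 := h3.trans_le ht
      simp only [h4, h5, h01, lt_irrefl, if_true, if_false]
  · refine Pt.lt_of_le_of_h_lt ⟨h01.le, fun t ht => ?_⟩ h01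
    simp only [ht, if_true]
  · simp only [lt_irrefl, h01, if_true, if_false]

theorem Pt.exists_limit (y : ℕ → Pt L d G) (hy : Monotone y) (r p q : ℝ)
    (h1 : ∀ n, (y n).h < r) (h2 : ∀ t, t < r → ∃ n, t < (y n).h)
    (hp : p < (y 0).h) (hq : q < (y 0).h) (hG : G r (p, q, (y 0).f q < (y 0).f p)) :
    ∃ z : Pt L d G, z.h = r ∧ ∀ n, y n ≤ z := by
  classical
  let F : ℝ → L := fun t => if ht : ∃ n, t < (y n).h then (y ht.choose).f t else d
  have hF : ∀ n t, t < (y n).h → F t = (y n).f t := by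
    intro n t ht
    have hex : ∃ n, t < (y n).h := ⟨n, ht⟩
    simp only [F, hex, dif_pos]
    rcases le_total n hex.choose with h | h
    · exact ((hy h).2 t ht).symm
    · exact (hy h).2 t hex.choose_spec
  refine ⟨⟨r, F, (y 0).h_nonneg.trans (h1 0).le, ?_, ?_, ?_, ?_⟩, rfl, ?_⟩
  · intro t ht
    rw [hF 0 t (ht.trans_le (y 0).h_nonneg), (y 0).neg t ht]
  · intro t ht
    have hex : ¬ ∃ n, t < (y n).h := by
      rintro ⟨n, hn⟩
      linarith [h1 n]
    simp only [F, hex, dif_neg, not_false_eq_true]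
  · intro t ht
    obtain ⟨n, hn⟩ := h2 t ht
    obtain ⟨e, he, h⟩ := (y n).rc t hn
    refine ⟨min e (y n).h, lt_min he hn, fun s h3 h4 => ?_⟩
    rw [hF n s (lt_min_iff.1 h4).2, hF n t hn]
    exact h s h3 (lt_min_iff.1 h4).1
  · intro t ht
    rcases lt_or_eq_of_le ht with h | h
    · obtain ⟨n, hn⟩ := h2 t h
      exact lim_congr ((y n).lim t hn.le) (fun s hs => (hF n s (hs.trans hn)).symm)
    · refine Or.inr ⟨p, q, ?_, ?_, ?_⟩
      · rw [h]; exact hp.trans (h1 0)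
      · rw [h]; exact hq.trans (h1 0)
      · rw [hF 0 p hp, hF 0 q hq, h]; exact hG
  · intro n
    exact ⟨(h1 n).le, fun t ht => (hF n t ht).symm⟩

theorem Pt.exists_glb (x y : Pt L d G) : ∃ m, IsGLB {x, y} m := by
  let S : Set ℝ := {r | r ≤ x.h ∧ r ≤ y.h ∧ ∀ t, t < r → x.f t = y.f t}
  have h0 : (0 : ℝ) ∈ S :=
    ⟨x.h_nonneg, y.h_nonneg, fun t ht => (x.neg t ht).trans (y.neg t ht).symm⟩
  have hb : BddAbove S := ⟨x.h, fun r hr => hr.1⟩
  have hs1 : sSup S ≤ x.h := csSup_le ⟨0, h0⟩ (fun r hr => hr.1)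
  have hs2 : sSup S ≤ y.h := csSup_le ⟨0, h0⟩ (fun r hr => hr.2.1)
  obtain ⟨m, hm, hmx⟩ := x.exists_restrict (sSup S) (le_csSup hb h0) hs1
  have hmy : m ≤ y := by
    refine ⟨hm ▸ hs2, fun t ht => ?_⟩
    obtain ⟨r, hr, htr⟩ := exists_lt_of_lt_csSup ⟨0, h0⟩ (hm ▸ ht)
    exact (hmx.2 t ht).trans (hr.2.2 t htr)
  refine ⟨m, ?_, ?_⟩
  · rintro z (rfl | rfl)
    · exact hmx
    · exact hmy
  · intro w hw
    have hwx : w ≤ x := hw (Or.inl rfl)
    have hwy : w ≤ y := hw (Or.inr rfl)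
    refine Pt.le_of_le_of_h_le hwx hmx ?_
    rw [hm]
    exact le_csSup hb ⟨hwx.1, hwy.1, fun t ht => (hwx.2 t ht).symm.trans (hwy.2 t ht)⟩

theorem Pt.branch_iso (B : Set (Pt L d G)) (hB : IsMaxChain (· ≤ ·) B) :
    ∃ I : Set ℝ, I.OrdConnected ∧ Nonempty (B ≃o I) := by
  have hmono : StrictMonoOn Pt.h B := fun _ _ _ _ h => Pt.h_lt h
  have hle : ∀ x ∈ B, ∀ y ∈ B, x.h ≤ y.h → x ≤ y := by
    intro x hx y hy h
    rcases hB.1.total hx hy with h' | h'
    · exact h'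
    · exact Pt.le_of_le_of_h_le le_rfl h' h
  refine ⟨Pt.h '' B, ⟨?_⟩, ⟨?_⟩⟩
  · rintro _ ⟨x, hx, rfl⟩ _ ⟨z, hz, rfl⟩ t ⟨h1, h2⟩
    obtain ⟨w, hw, hwz⟩ := z.exists_restrict t (x.h_nonneg.trans h1) h2
    refine ⟨w, ?_, hw⟩
    have hc : IsChain (· ≤ ·) (insert w B) := by
      refine hB.1.insert (fun v hv _ => ?_)
      rcases hB.1.total hv hz with h | h
      · exact Pt.total_of_le hwz h
      · exact Or.inl (hwz.trans h)
    rw [hB.2 hc (subset_insert w B)]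
    exact mem_insert w B
  · refine RelIso.mk (Equiv.ofBijective (fun x : B => (⟨x.1.h, mem_image_of_mem _ x.2⟩ :
      (Pt.h '' B))) ⟨?_, ?_⟩) ?_
    · intro x y hxy
      have h : x.1.h = y.1.h := congrArg Subtype.val hxy
      exact Subtype.ext (le_antisymm (hle _ x.2 _ y.2 h.le) (hle _ y.2 _ x.2 h.ge))
    · rintro ⟨_, x, hx, rfl⟩
      exact ⟨⟨x, hx⟩, rfl⟩
    · intro x y
      exact ⟨fun h => hle _ x.2 _ y.2 h, fun h => h.1⟩

theorem Pt.sameComp_iff {x y z : Pt L d G} (hy : x < y) (hz : x < z) :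
    (∃ w, x < w ∧ w ≤ y ∧ w ≤ z) ↔ y.f x.h = z.f x.h := by
  constructor
  · rintro ⟨w, hw, hwy, hwz⟩
    exact (hwy.2 _ (Pt.h_lt hw)).symm.trans (hwz.2 _ (Pt.h_lt hw))
  · intro h
    obtain ⟨e₁, he₁, h₁⟩ := y.rc _ (Pt.h_lt hy)
    obtain ⟨e₂, he₂, h₂⟩ := z.rc _ (Pt.h_lt hz)
    have hr : x.h < min (min e₁ e₂) (min y.h z.h) :=
      lt_min (lt_min he₁ he₂) (lt_min (Pt.h_lt hy) (Pt.h_lt hz))
    obtain ⟨w, hw, hwy⟩ := y.exists_restrict (min (min e₁ e₂) (min y.h z.h))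
      (x.h_nonneg.trans hr.le) ((min_le_right _ _).trans (min_le_left _ _))
    refine ⟨w, Pt.lt_of_le_of_h_lt (Pt.le_of_le_of_h_le hy.le hwy (hw ▸ hr.le)) (hw ▸ hr), hwy,
      hw ▸ (min_le_right _ _).trans (min_le_right _ _), fun t ht => ?_⟩
    rw [hwy.2 t ht]
    rw [hw] at ht
    by_cases h3 : t < x.h
    · exact (hy.le.2 t h3).symm.trans (hz.le.2 t h3)
    · have h4 := (lt_min_iff.1 (lt_min_iff.1 ht).1)
      rw [h₁ t (not_lt.1 h3) h4.1, h₂ t (not_lt.1 h3) h4.2, h]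

/-- A small step in a prescribed direction. -/
theorem Pt.small (φ : Pt L d G ≃o Pt L d G) {x w₀ : Pt L d G} (h : x < w₀) {ε : ℝ}
    (hε : 0 < ε) : ∃ w, x < w ∧ w ≤ w₀ ∧ w.h < x.h + ε ∧ (φ w).h < (φ x).h + ε := by
  have aux : ∀ {a b : Pt L d G}, a < b → ∃ w, a < w ∧ w ≤ b ∧ w.h < a.h + ε := by
    intro a b hab
    have h1 : a.h < min b.h (a.h + ε / 2) := lt_min (Pt.h_lt hab) (by linarith)
    obtain ⟨w, hw, hwb⟩ := b.exists_restrict _ (a.h_nonneg.trans h1.le) (min_le_left _ _)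
    refine ⟨w, Pt.lt_of_le_of_h_lt (Pt.le_of_le_of_h_le hab.le hwb (hw ▸ h1.le)) (hw ▸ h1), hwb,
      ?_⟩
    have := min_le_right b.h (a.h + ε / 2)
    linarith
  obtain ⟨w₁, a1, a2, a3⟩ := aux h
  obtain ⟨v, b1, b2, b3⟩ := aux (φ.strictMono a1)
  have c1 : φ.symm v ≤ w₁ := by
    rw [← φ.le_iff_le]; simpa using b2
  refine ⟨φ.symm v, ?_, c1.trans a2, c1.1.trans_lt a3, by simpa using b3⟩
  rw [← φ.lt_iff_lt]; simpa using b1

/-- The label function of `z` is not constant between the heights of `x` and `z`. -/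
def Turn (x z : Pt L d G) : Prop := ∃ s, x.h ≤ s ∧ s < z.h ∧ z.f s ≠ z.f x.h

theorem Pt.step [Nontrivial L] (φ : Pt L d G ≃o Pt L d G) (x : Pt L d G) {ε : ℝ} (hε : 0 < ε) :
    ∃ z, x < z ∧ z.h < x.h + ε ∧ (φ z).h < (φ x).h + ε ∧ Turn (φ x) (φ z) := by
  have hε2 : 0 < ε / 2 := by linarith
  obtain ⟨w₀, hw₀, -⟩ := (φ x).exists_extend d
  obtain ⟨w, a1, -, a3, a4⟩ := Pt.small φ.symm hw₀ hε2
  obtain ⟨ζ, hζ⟩ := exists_ne (w.f (φ x).h)
  obtain ⟨w₁, hw₁, hw₁f⟩ := w.exists_extend ζ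
  obtain ⟨z, b1, b2, b3, b4⟩ := Pt.small φ.symm hw₁ hε2
  simp only [OrderIso.symm_apply_apply] at a4
  refine ⟨φ.symm z, ?_, by linarith, ?_, ?_⟩
  · rw [← φ.lt_iff_lt]; simpa using a1.trans b1
  · simp only [OrderIso.apply_symm_apply]; linarith
  · simp only [OrderIso.apply_symm_apply]
    refine ⟨w.h, a1.le.1, Pt.h_lt b1, ?_⟩
    rw [b2.2 _ (Pt.h_lt b1), hw₁f, ← b1.le.2 _ (Pt.h_lt a1)]
    exact hζ

theorem Turn.mono {x z z' : Pt L d G} (h : Turn x z) (hz : z ≤ z') : Turn x z' := by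
  obtain ⟨s, h1, h2, h3⟩ := h
  exact ⟨s, h1, h2.trans_le hz.1, by
    rw [← hz.2 s h2, ← hz.2 _ (h1.trans_lt h2)]; exact h3⟩

theorem Pt.children [Nontrivial L] (φ : Pt L d G ≃o Pt L d G)
    (N : Pt L d G × {ε : ℝ // 0 < ε}) :
    ∃ c : Bool → Pt L d G × {ε : ℝ // 0 < ε},
      (∀ i, N.1 < (c i).1 ∧ (c i).1.h + (c i).2.1 ≤ N.1.h + N.2.1 ∧
        (φ (c i).1).h + (c i).2.1 ≤ (φ N.1).h + N.2.1 ∧ Turn (φ N.1) (φ (c i).1)) ∧
      (c false).1.h + (c false).2.1 ≤ (c true).1.h ∧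
      (φ (c false).1).h + (c false).2.1 ≤ (φ (c true).1).h := by
  obtain ⟨x, ε, hε⟩ := N
  have hε3 : 0 < ε / 3 := by linarith
  obtain ⟨z₀, a1, a2, a3, a4⟩ := Pt.step φ x hε3
  obtain ⟨z₁, b1, b2, b3, -⟩ := Pt.step φ z₀ hε3
  have c1 : z₀.h < z₁.h := Pt.h_lt b1
  have c2 : (φ z₀).h < (φ z₁).h := Pt.h_lt (φ.strictMono b1)
  have c3 : 0 < min (z₁.h - z₀.h) ((φ z₁).h - (φ z₀).h) := lt_min (by linarith) (by linarith)
  have c4 := min_le_left (z₁.h - z₀.h) ((φ z₁).h - (φ z₀).h)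
  have c5 := min_le_right (z₁.h - z₀.h) ((φ z₁).h - (φ z₀).h)
  refine ⟨fun i => cond i (z₁, ⟨ε / 3, hε3⟩) (z₀, ⟨_, c3⟩), ?_, ?_, ?_⟩
  · intro i
    cases i
    · refine ⟨a1, ?_, ?_, a4⟩
      · simp only [cond_false]; linarith
      · simp only [cond_false]; linarith
    · refine ⟨a1.trans b1, ?_, ?_, a4.mono (φ.monotone b1.le)⟩
      · simp only [cond_true]; linarith
      · simp only [cond_true]; linarith
  · simp only [cond_false, cond_true]; linarith
  · simp only [cond_false, cond_true]; linarith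

section Rigid

variable [Nontrivial L]
  (hG1 : ∀ t c c', G t c → G t c' → c = c')
  (hG2 : ∀ d₁ d₂ : List Bool → ℝ, Function.Injective (brSup d₁) → Function.Injective (brSup d₂) →
    ∀ c, ∃ b, G (brSup d₁ b) c ∧ ∀ c', G (brSup d₂ b) c' → brSup d₂ b = brSup d₁ b)

include hG1 hG2

theorem Pt.key (φ : Pt L d G ≃o Pt L d G) (y : Pt L d G) {ε : ℝ} (hε : 0 < ε) (p q : ℝ)
    (hp : p < y.h) (hq : q < y.h) :
    (φ y).h < y.h + ε ∧ ∃ z, y ≤ z ∧ ((φ z).f q < (φ z).f p ↔ y.f q < y.f p) := by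
  choose child hchild using Pt.children φ
  let node : List Bool → Pt L d G × {ε : ℝ // 0 < ε} :=
    fun l => l.foldr (fun i N => child N i) (y, ⟨ε, hε⟩)
  have hnode : ∀ l i, node (i :: l) = child (node l) i := fun _ _ => rfl
  let d₁ : List Bool → ℝ := fun l => (node l).1.h
  let d₂ : List Bool → ℝ := fun l => (φ (node l).1).h
  let e : List Bool → ℝ := fun l => (node l).2.1
  have e3 : ∀ l, 0 < e l := fun l => (node l).2.2
  have a1 : ∀ l i, d₁ l < d₁ (i :: l) := fun l i => Pt.h_lt ((hchild (node l)).1 i).1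
  have a2 : ∀ l i, d₁ (i :: l) + e (i :: l) ≤ d₁ l + e l := fun l i => ((hchild (node l)).1 i).2.1
  have a4 : ∀ l, d₁ (false :: l) + e (false :: l) ≤ d₁ (true :: l) :=
    fun l => (hchild (node l)).2.1
  have b1 : ∀ l i, d₂ l < d₂ (i :: l) :=
    fun l i => Pt.h_lt (φ.strictMono ((hchild (node l)).1 i).1)
  have b2 : ∀ l i, d₂ (i :: l) + e (i :: l) ≤ d₂ l + e l :=
    fun l i => ((hchild (node l)).1 i).2.2.1
  have b4 : ∀ l, d₂ (false :: l) + e (false :: l) ≤ d₂ (true :: l) :=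
    fun l => (hchild (node l)).2.2
  obtain ⟨b, hb1, hb2⟩ := hG2 d₁ d₂ (scheme_inj a1 a2 e3 a4) (scheme_inj b1 b2 e3 b4)
    (p, q, y.f q < y.f p)
  let Y : ℕ → Pt L d G := fun n => (node (pre b n)).1
  have hY : StrictMono Y := strictMono_nat_of_lt_succ (fun n => ((hchild (node (pre b n))).1 _).1)
  have hY0 : Y 0 = y := rfl
  obtain ⟨z, hz, hYz⟩ := Pt.exists_limit Y hY.monotone (brSup d₁ b) p q
    (fun n => scheme_lt_sup a1 a2 e3 b n) (fun t ht => scheme_approx b t ht) hp hq hb1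
  have hle : brSup d₂ b ≤ (φ z).h := ciSup_le (fun n => (φ.monotone (hYz n)).1)
  have hrule : Rule G (φ z).f (brSup d₂ b) := by
    refine ((φ z).lim _ hle).resolve_left ?_
    rintro ⟨t, ht, hc⟩
    obtain ⟨n, hn⟩ := scheme_approx b t ht
    have hT : Turn (φ (Y n)) (φ (Y (n + 1))) := ((hchild (node (pre b n))).1 (b n)).2.2.2
    obtain ⟨s, s1, s2, s3⟩ := hT
    have hn' : t < (φ (Y n)).h := hn
    have l1 : (φ (Y n)).h < brSup d₂ b := scheme_lt_sup b1 b2 e3 b n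
    have l2 : (φ (Y (n + 1))).h < brSup d₂ b := scheme_lt_sup b1 b2 e3 b (n + 1)
    have m1 := φ.monotone (hYz (n + 1))
    apply s3
    rw [m1.2 s s2, m1.2 _ (s1.trans_lt s2), hc s (hn'.le.trans s1) (s2.trans l2),
      hc _ hn'.le l1]
  obtain ⟨p', q', -, -, hG⟩ := hrule
  have heq := hb2 _ hG
  rw [heq] at hG
  have hc := hG1 _ _ _ hG hb1
  simp only [Prod.mk.injEq] at hc
  obtain ⟨rfl, rfl, hc⟩ := hc
  refine ⟨?_, z, hYz 0, iff_of_eq hc⟩
  have f1 : (φ y).h < brSup d₂ b := scheme_lt_sup b1 b2 e3 b 0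
  have f2 : brSup d₁ b ≤ y.h + ε := scheme_sup_le a1 a2 e3 b 0
  linarith

theorem Pt.h_eq (φ : Pt L d G ≃o Pt L d G) (y : Pt L d G) : (φ y).h = y.h := by
  have aux : ∀ (ψ : Pt L d G ≃o Pt L d G) (x : Pt L d G), (ψ x).h ≤ x.h := by
    intro ψ x
    refine le_of_forall_pos_lt_add (fun ε hε => ?_)
    exact (Pt.key hG1 hG2 ψ x hε (x.h - 1) (x.h - 1) (by linarith) (by linarith)).1
  refine le_antisymm (aux φ y) ?_
  simpa using aux φ.symm (φ y)

theorem Pt.cmp_iff (φ : Pt L d G ≃o Pt L d G) (y : Pt L d G) (p q : ℝ)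
    (hp : p < y.h) (hq : q < y.h) : (φ y).f q < (φ y).f p ↔ y.f q < y.f p := by
  obtain ⟨-, z, hz, h⟩ := Pt.key hG1 hG2 φ y one_pos p q hp hq
  have hh := Pt.h_eq hG1 hG2 φ y
  rw [(φ.monotone hz).2 p (hh ▸ hp), (φ.monotone hz).2 q (hh ▸ hq)]
  exact h

theorem Pt.label_le [WellFoundedLT L] (ξ : L) : ∀ (φ : Pt L d G ≃o Pt L d G) (y : Pt L d G)
    (p : ℝ), p < y.h → y.f p = ξ → ξ ≤ (φ y).f p := by
  induction ξ using WellFoundedLT.induction with
  | ind ξ ih =>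
    intro φ y p hp hξ
    by_contra hlt
    rw [not_le] at hlt
    obtain ⟨w, hw, hwf⟩ := y.exists_extend ((φ y).f p)
    have h1 : w.f y.h < w.f p := by
      rw [hwf, ← hw.le.2 p hp, hξ]; exact hlt
    have h2 := (Pt.cmp_iff hG1 hG2 φ w p y.h (hp.trans (Pt.h_lt hw)) (Pt.h_lt hw)).2 h1
    have h3 := ih _ hlt φ w y.h (Pt.h_lt hw) hwf
    have h4 : (φ y).f p = (φ w).f p :=
      (φ.monotone hw.le).2 p (by rw [Pt.h_eq hG1 hG2]; exact hp)
    rw [← h4] at h2
    exact absurd (h3.trans_lt h2) (lt_irrefl _)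

theorem Pt.rigid [WellFoundedLT L] (φ : Pt L d G ≃o Pt L d G) (y : Pt L d G) : φ y = y := by
  have hh := Pt.h_eq hG1 hG2 φ y
  refine le_antisymm (Pt.le_def.2 ⟨hh.le, fun t ht => ?_⟩) (Pt.le_def.2 ⟨hh.ge, fun t ht => ?_⟩)
  · refine le_antisymm ?_ (Pt.label_le hG1 hG2 _ φ y t (hh ▸ ht) rfl)
    simpa using Pt.label_le hG1 hG2 _ φ.symm (φ y) t ht rfl
  · refine le_antisymm (Pt.label_le hG1 hG2 _ φ y t ht rfl) ?_
    simpa using Pt.label_le hG1 hG2 _ φ.symm (φ y) t (hh ▸ ht) rfl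

end Rigid

end Pool.Agent.MP_91fb13_lc

end MrgPart1

-- marker of a merged file
example : 731051 + 95035 = 731051 + 95035 := rfl
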